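import Mathlib
import Pool.Agent.E8helper29.Zn.Stm2

/-! Project ZN2, piece 21: the coefficient functional at Chebyshev nodes. -/

set_option autoImplicit false

open Polynomial Finset

namespace Pool.Agent.E8helper26.Zn

open Polynomial.Chebyshev

lemma abs_coeff_one (n : ℕ) : |(T ℝ (n : ℤ)).coeff 1| ≤ n ∧ |(T ℝ ((n : ℤ) + 1)).coeff 1| ≤ n + 1 := by
  induction n with
  | zero =>
    constructor
    · simp [coeff_one]
    · simp
  | succ n ih =>
    obtain ⟨h1, h2⟩ := ih
    constructor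
    · push_cast
      exact h2
    · have e : (T ℝ (((n + 1 : ℕ) : ℤ) + 1)) = 2 * X * T ℝ ((n : ℤ) + 1) - T ℝ (n : ℤ) := by
        push_cast
        rw [show (n : ℤ) + 1 + 1 = (n : ℤ) + 2 by ring, T_add_two]
      have h0 : |(T ℝ ((n : ℤ) + 1)).coeff 0| ≤ 1 := by
        rw [coeff_zero_eq_eval_zero, ← Real.cos_pi_div_two, T_real_cos]
        exact Real.abs_cos_le_one _
      have e2 : (2 * X * T ℝ ((n : ℤ) + 1)).coeff 1 = 2 * (T ℝ ((n : ℤ) + 1)).coeff 0 := by
        rw [mul_assoc, show (2 : ℝ[X]) = Polynomial.C 2 from (map_ofNat Polynomial.C 2).symm,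
          coeff_C_mul, coeff_X_mul]
      rw [e, coeff_sub, e2]
      have h3 := abs_sub (2 * (T ℝ ((n : ℤ) + 1)).coeff 0) ((T ℝ (n : ℤ)).coeff 1)
      rw [abs_mul, abs_two] at h3
      push_cast
      linarith

lemma sumZeroes_T_mul_T {J : ℕ} {i j : ℕ} (hj : 1 ≤ j) (hjJ : j ≤ J) (hi : i ≤ J) :
    sumZeroes (J + 1) (T ℝ (j : ℤ) * T ℝ (i : ℤ)) = if i = j then Real.pi / 2 else 0 := by
  have e : T ℝ (j : ℤ) * T ℝ (i : ℤ) = (1 / 2 : ℝ) • (T ℝ ((j : ℤ) + i) + T ℝ ((j : ℤ) - i)) := by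
    rw [← T_mul_T, smul_eq_C_mul]
    have : (2 : ℝ[X]) = Polynomial.C 2 := (map_ofNat Polynomial.C 2).symm
    rw [this, ← mul_assoc, ← mul_assoc, ← Polynomial.C_mul]
    norm_num
  have hadd : ∀ P Q : ℝ[X], sumZeroes (J + 1) (P + Q) = sumZeroes (J + 1) P + sumZeroes (J + 1) Q := by
    intro P Q
    simp only [sumZeroes, eval_add, sum_add_distrib, mul_add]
  have h1 : sumZeroes (J + 1) (T ℝ ((j : ℤ) + i)) = 0 := by
    apply sumZeroes_T_of_not_dvd
    intro h
    have h2 := Int.le_of_dvd (by omega) h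
    push_cast at h2
    omega
  rw [e, sumZeroes_smul, hadd, h1, zero_add]
  split_ifs with hij
  · rw [hij, sub_self, sumZeroes_T_zero (by omega)]
    ring
  · rw [sumZeroes_T_of_not_dvd, mul_zero]
    intro h
    have h2 : (2 * ((J + 1 : ℕ) : ℤ)) ∣ |(j : ℤ) - i| := (dvd_abs _ _).2 h
    have h4 : (0 : ℤ) < |(j : ℤ) - i| := abs_pos.2 (by omega)
    have h3 := Int.le_of_dvd h4 h2
    push_cast at h3
    have h5 : |(j : ℤ) - i| ≤ J := by
      rw [abs_le]
      constructor <;> omega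
    omega

theorem main (J : ℕ) (hJ : 1 ≤ J) : ∃ (M : ℕ) (β w : Fin M → ℝ), (∀ i, |β i| ≤ 1) ∧
    ∑ i, |w i| ≤ 2 * (J : ℝ) ^ 2 ∧
    ∀ p : ℝ[X], p.natDegree ≤ J → ∑ i, w i * p.eval (β i) = p.coeff 1 := by
  set c : ℕ → ℝ := fun r => Real.cos ((2 * r + 1) / (2 * ((J + 1 : ℕ) : ℝ)) * Real.pi) with hc
  set v : ℕ → ℝ := fun r => (2 / ((J + 1 : ℕ) : ℝ)) *
    ∑ j ∈ Icc 1 J, (T ℝ (j : ℤ)).coeff 1 * (T ℝ (j : ℤ)).eval (c r) with hv
  have hM : (0 : ℝ) < ((J + 1 : ℕ) : ℝ) := by positivity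
  refine ⟨J + 1, fun i => c i, fun i => v i, fun i => Real.abs_cos_le_one _, ?_, ?_⟩
  · rw [Fin.sum_univ_eq_sum_range (fun i => |v i|) (J + 1)]
    have hb : ∀ r ∈ range (J + 1), |v r| ≤ (2 / ((J + 1 : ℕ) : ℝ)) * (J * (J + 1) / 2) := by
      intro r _
      rw [hv]
      simp only
      rw [abs_mul, abs_of_pos (by positivity : (0 : ℝ) < 2 / ((J + 1 : ℕ) : ℝ))]
      apply mul_le_mul_of_nonneg_left _ (by positivity)
      refine (abs_sum_le_sum_abs _ _).trans ?_
      have h1 : ∀ j ∈ Icc 1 J, |(T ℝ (j : ℤ)).coeff 1 * (T ℝ (j : ℤ)).eval (c r)| ≤ (j : ℝ) := by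
        intro j _
        rw [abs_mul]
        have h2 : |(T ℝ (j : ℤ)).eval (c r)| ≤ 1 := by
          rw [hc]
          simp only
          rw [T_real_cos]
          exact Real.abs_cos_le_one _
        calc |(T ℝ (j : ℤ)).coeff 1| * |(T ℝ (j : ℤ)).eval (c r)| ≤ (j : ℝ) * 1 :=
              mul_le_mul (abs_coeff_one j).1 h2 (abs_nonneg _) (by positivity)
          _ = j := mul_one _
      refine (sum_le_sum h1).trans (le_of_eq ?_)
      have h3 : ∀ n : ℕ, ∑ j ∈ Icc 1 n, (j : ℝ) = n * (n + 1) / 2 := by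
        intro n
        induction n with
        | zero => simp
        | succ n ih =>
          rw [sum_Icc_succ_top (by omega), ih]
          push_cast
          ring
      exact h3 J
    refine (sum_le_sum hb).trans ?_
    rw [sum_const, card_range, nsmul_eq_mul]
    have hJ' : (1 : ℝ) ≤ J := by exact_mod_cast hJ
    have e : ((J + 1 : ℕ) : ℝ) * (2 / ((J + 1 : ℕ) : ℝ) * (J * (J + 1) / 2)) = J * (J + 1) := by
      field_simp
    rw [e]
    nlinarith
  · intro p hp
    rw [Fin.sum_univ_eq_sum_range (fun i => v i * p.eval (c i)) (J + 1)]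
    have key : ∀ q : ℝ[X], ∑ r ∈ range (J + 1), v r * q.eval (c r) =
        ∑ j ∈ Icc 1 J, (T ℝ (j : ℤ)).coeff 1 * ((2 / Real.pi) * sumZeroes (J + 1) (T ℝ (j : ℤ) * q)) := by
      intro q
      have e1 : ∀ j : ℕ, (2 / Real.pi) * sumZeroes (J + 1) (T ℝ (j : ℤ) * q) =
          ∑ r ∈ range (J + 1), (2 / ((J + 1 : ℕ) : ℝ)) * ((T ℝ (j : ℤ)).eval (c r) * q.eval (c r)) := by
        intro j
        rw [sumZeroes, ← mul_assoc, mul_sum]
        apply sum_congr rfl
        intro r _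
        rw [eval_mul]
        have : 2 / Real.pi * (Real.pi / ((J + 1 : ℕ) : ℝ)) = 2 / ((J + 1 : ℕ) : ℝ) := by
          field_simp
        rw [this]
      simp_rw [e1, mul_sum]
      rw [sum_comm]
      apply sum_congr rfl
      intro r _
      rw [hv]
      simp only
      rw [mul_sum, sum_mul]
      apply sum_congr rfl
      intro j _
      ring
    rw [key]
    have hmem : p ∈ degreeLT ℝ (J + 1) := by
      rw [mem_degreeLT]
      refine lt_of_le_of_lt degree_le_natDegree ?_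
      exact_mod_cast Nat.lt_succ_of_le hp
    rw [← Sequence.span_degreeLT (chebyshevTsequence ℝ) (by simp),
      show Set.Iio (J + 1) = ((Finset.range (J + 1) : Finset ℕ) : Set ℕ) by simp,
      Submodule.mem_span_image_finset_iff_exists_fun'] at hmem
    obtain ⟨a, rfl⟩ := hmem
    have e2 : ∀ j ∈ Icc 1 J, (2 / Real.pi) * sumZeroes (J + 1) (T ℝ (j : ℤ) *
        ∑ i ∈ range (J + 1), a i • (chebyshevTsequence ℝ) i) = a j := by
      intro j hj
      rw [mem_Icc] at hj
      rw [mul_sum, sumZeroes_sum]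
      have e3 : ∀ i ∈ range (J + 1), sumZeroes (J + 1) (T ℝ (j : ℤ) * a i • (chebyshevTsequence ℝ) i) =
          if i = j then a j * (Real.pi / 2) else 0 := by
        intro i hi
        rw [mem_range] at hi
        rw [mul_smul_comm, sumZeroes_smul]
        have e4 : (chebyshevTsequence ℝ) i = T ℝ (i : ℤ) := rfl
        rw [e4, sumZeroes_T_mul_T hj.1 hj.2 (by omega)]
        split_ifs with h
        · rw [h]
        · ring
      rw [sum_congr rfl e3, sum_ite_eq' (range (J + 1)) j, if_pos (mem_range.2 (by omega))]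
      have := Real.pi_ne_zero
      field_simp
    rw [sum_congr rfl fun j hj => by rw [e2 j hj]]
    rw [finsetSum_coeff, sum_range_succ']
    have e5 : ((a 0) • (chebyshevTsequence ℝ) 0).coeff 1 = 0 := by
      have e4 : (chebyshevTsequence ℝ) 0 = T ℝ ((0 : ℕ) : ℤ) := rfl
      rw [e4]
      simp [coeff_one]
    rw [e5, add_zero, range_eq_Ico, sum_Ico_add' (fun i => ((a i) • (chebyshevTsequence ℝ) i).coeff 1) 0 J 1]
    apply sum_congr
    · ext x
      simp only [mem_Icc, mem_Ico]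
      omega
    · intro j _
      rw [coeff_smul, smul_eq_mul]
      exact mul_comm _ _

/-- PIECE 21 -/
theorem p21 : Pool.Agent.E8helper29.Zn.Stm21 := main

end Pool.Agent.E8helper26.Zn
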